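import Pool.Agent.R865.SchT

/-!
# Smooth Schoenflies for 3-spheres which bound a tame ball

A smooth 3-sphere in `ℝ⁴` (so in `S⁴`) is given together with a parametrization `H` of the topological
ball which it bounds: `H` is continuous and injective on a neighbourhood of the closed unit ball, and a
local diffeomorphism near the unit sphere. We show that the sphere is unknotted if the homeomorphism
given by `H` from the open unit ball onto its image belongs to the following class, called `Tame`.

It is the least class of homeomorphisms between smooth 4-manifolds (without boundary, possibly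
noncompact, possibly exotic) which contains the homeomorphisms with a compact set of points at which
they are not local diffeomorphisms and which

* are smooth (with an inverse which need not be differentiable) with derivatives of rank at least three,
  or
* are at every point a local diffeomorphism or cone monotone,

and which is closed under inverses, compositions and limits relative to infinity (`g` belongs to the
class if every neighbourhood of its graph contains the graph of a member which agrees with `g` outside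
a compact set).
-/

set_option autoImplicit false

open Set Filter Topology Metric Function
open scoped Manifold ContDiff

noncomputable section

namespace Pool.Agent.Results.MP_6c077c_gt.TameBall

/-- `ℝ⁴` -/
abbrev R4 : Type := EuclideanSpace ℝ (Fin 4)

/-- smooth 4-manifolds (Hausdorff, without boundary) -/
structure Mfd4 where
  /-- the set of points -/
  pts : Type
  [top : TopologicalSpace pts]
  [chart : ChartedSpace R4 pts]
  smooth : IsManifold (𝓡 4) ∞ pts
  hausdorff : T2Space pts

instance : CoeSort Mfd4 Type := ⟨Mfd4.pts⟩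

instance (M : Mfd4) : TopologicalSpace M := M.top

instance (M : Mfd4) : ChartedSpace R4 M := M.chart

/-- an open subset of `ℝ⁴` as a smooth manifold -/
def openSubset (V : TopologicalSpace.Opens R4) : Mfd4 where
  pts := V
  smooth := inferInstance
  hausdorff := inferInstance

/-- the inclusion of an open subset of `ℝ⁴` in `ℝ⁴` -/
def incl (V : TopologicalSpace.Opens R4) : openSubset V → R4 := fun y => (show V from y).1

/-- the open unit ball of `ℝ⁴` -/
def unitBall : TopologicalSpace.Opens R4 := ⟨ball 0 1, isOpen_ball⟩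

section defs

variable {M N : Type} [TopologicalSpace M] [TopologicalSpace N] [ChartedSpace R4 M]
  [ChartedSpace R4 N]

/-- `f` is a map of class `C^∞` -/
def Smooth (f : M → N) : Prop := ContMDiff (𝓡 4) (𝓡 4) ∞ f

/-- the derivative of `f` at `x`, as a linear map from `ℝ⁴` to `ℝ⁴` (in the preferred charts) -/
def der (f : M → N) (x : M) : R4 →L[ℝ] R4 := mfderiv (𝓡 4) (𝓡 4) f x

/-- the rank of a linear map -/
def rank (L : R4 →L[ℝ] R4) : ℕ := Module.finrank ℝ (LinearMap.range L.toLinearMap)

/-- `f` is a local diffeomorphism (of class `C^∞`, with smooth inverse) at `x` -/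
def LocDiff (f : M → N) (x : M) : Prop := IsLocalDiffeomorphAt (𝓡 4) (𝓡 4) ∞ f x

/-- For every direction `v` the increments of `h` near `0` in the directions near `v` lie in a
proper cone: there are `r > 0` and a linear functional `ℓ` with `r ‖h q - h p‖ < ℓ (h q - h p)` for
all `p`, `q` in the ball of radius `r` about `0` such that `‖q - p - t v‖ ≤ r t` for some
`t > 0`. -/
def ConeIncrements (h : R4 → R4) : Prop :=
  ∀ v : R4, v ≠ 0 → ∃ (r : ℝ) (ℓ : R4 →L[ℝ] ℝ), 0 < r ∧ ∀ p q : R4, ‖p‖ ≤ r → ‖q‖ ≤ r →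
    ∀ t : ℝ, 0 < t → ‖q - p - t • v‖ ≤ r * t → r * ‖h q - h p‖ < ℓ (h q - h p)

/-- `f` is cone monotone at `x`: it has increments in proper cones in some smooth coordinates
around `x = A 0` and around `f x` (`A` is a smooth parametrization around `x`, `B` a smooth
coordinate system around `f x`). -/
def ConeMonotone (f : M → N) (x : M) : Prop :=
  ∃ (A : R4 → M) (B : N → R4), A 0 = x ∧ LocDiff A 0 ∧ LocDiff B (f x) ∧
    ConeIncrements fun p => B (f (A p))

/-- the set of the points at which `f` is not a local diffeomorphism -/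
def bad (f : M → N) : Set M := {x | ¬ LocDiff f x}

/-- the graph of `f` is contained in `O` -/
def GraphIn (f : M → N) (O : Set (M × N)) : Prop := ∀ x, (x, f x) ∈ O

end defs

/-- The least class of homeomorphisms of smooth 4-manifolds which contains the ones with a compact set
of bad points which are smooth with derivatives of rank at least three or everywhere local
diffeomorphisms or cone monotone, and which is closed under inverses, compositions and limits relative
to infinity. -/
inductive Tame : (M N : Mfd4) → (M ≃ₜ N) → Prop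
  | corankOne {M N : Mfd4} (g : M ≃ₜ N) : IsCompact (bad g) →
      Smooth g → (∀ x, 3 ≤ rank (der g x)) → Tame M N g
  | coneMonotone {M N : Mfd4} (g : M ≃ₜ N) : IsCompact (bad g) →
      (∀ x, LocDiff g x ∨ ConeMonotone g x) → Tame M N g
  | inverse {M N : Mfd4} (g : M ≃ₜ N) : Tame M N g → Tame N M g.symm
  | composition {M N P : Mfd4} (g : M ≃ₜ N) (h : N ≃ₜ P) :
      Tame M N g → Tame N P h → Tame M P (g.trans h)
  | limit {M N : Mfd4} (g : M ≃ₜ N) (h : Set (M × N) → (M ≃ₜ N)) (C : Set (M × N) → Set M) :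
      (∀ O, IsOpen O → GraphIn g O → IsCompact (C O) ∧ GraphIn (h O) O ∧
        ∀ x, x ∉ C O → h O x = g x) →
      (∀ O, IsOpen O → GraphIn g O → Tame M N (h O)) → Tame M N g

/-- every neighbourhood of the graph of `g` contains the graph of a diffeomorphism which agrees with
`g` outside a compact set -/
def Approximable (M N : Mfd4) (g : M ≃ₜ N) : Prop :=
  ∀ O : Set (M × N), IsOpen O → GraphIn g O →
    ∃ (Φ : Diffeomorph (𝓡 4) (𝓡 4) M N ∞) (C : Set M), IsCompact C ∧ GraphIn Φ O ∧
      ∀ x, x ∉ C → Φ x = g x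

theorem approx_symm {M N : Mfd4} (g : M ≃ₜ N) (hg : Approximable M N g) :
    Approximable N M g.symm := by
  intro O hO hgO
  obtain ⟨Φ, C, hC, hΦ, hoff⟩ := hg (Prod.swap ⁻¹' O) (hO.preimage continuous_swap) (fun x => by
    have := hgO (g x)
    rw [g.symm_apply_apply] at this
    exact this)
  refine ⟨Φ.symm, g '' C, hC.image g.continuous, fun y => ?_, fun y hy => ?_⟩
  · have := hΦ (Φ.symm y)
    rw [Φ.apply_symm_apply] at this
    exact this
  · have h1 : g.symm y ∉ C := fun h => hy ⟨_, h, g.apply_symm_apply y⟩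
    have h2 := hoff _ h1
    rw [g.apply_symm_apply] at h2
    rw [← h2, Φ.symm_apply_apply, h2]

theorem approx_trans {M N P : Mfd4} (g : M ≃ₜ N) (h : N ≃ₜ P)
    (hg : Approximable M N g) (hh : Approximable N P h) : Approximable M P (g.trans h) := by
  intro O hO hgO
  have c1 : Continuous fun z : N × P => ((g.symm z.1, z.2) : M × P) :=
    (g.symm.continuous.comp continuous_fst).prodMk continuous_snd
  obtain ⟨Ψ, D, hD, hΨ, hoff2⟩ := hh ((fun z : N × P => ((g.symm z.1, z.2) : M × P)) ⁻¹' O)
    (hO.preimage c1) (fun y => by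
      have := hgO (g.symm y)
      rw [Homeomorph.trans_apply, g.apply_symm_apply] at this
      exact this)
  have c2 : Continuous fun z : M × N => ((z.1, Ψ z.2) : M × P) :=
    continuous_fst.prodMk (Ψ.continuous.comp continuous_snd)
  obtain ⟨Φ, C, hC, hΦ, hoff⟩ := hg ((fun z : M × N => ((z.1, Ψ z.2) : M × P)) ⁻¹' O)
    (hO.preimage c2) (fun x => by
      have := hΨ (g x)
      simp only [mem_preimage, g.symm_apply_apply] at this
      exact this)
  refine ⟨Φ.trans Ψ, C ∪ g.symm '' D, hC.union (hD.image g.symm.continuous), hΦ, fun x hx => ?_⟩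
  have h1 : Φ x = g x := hoff x fun h => hx (Or.inl h)
  have h2 : g x ∉ D := fun h => hx (Or.inr ⟨_, h, g.symm_apply_apply x⟩)
  change Ψ (Φ x) = h (g x)
  rw [h1, hoff2 _ h2]

theorem corank_aux (X Y : Type) [TopologicalSpace X] [TopologicalSpace Y]
    [ChartedSpace R4 X] [ChartedSpace R4 Y] (hX1 : IsManifold (𝓡 4) ∞ X) (hX2 : T2Space X)
    (hY : IsManifold (𝓡 4) ∞ Y) (g : X ≃ₜ Y) (hb : IsCompact (bad g)) (hg : Smooth g)
    (hr : ∀ x, 3 ≤ rank (der g x)) (O : Set (X × Y)) (hO : IsOpen O) (hgO : GraphIn g O) :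
    ∃ (Φ : Diffeomorph (𝓡 4) (𝓡 4) X Y ∞) (C : Set X), IsCompact C ∧ GraphIn Φ O ∧
      ∀ x, x ∉ C → Φ x = g x := by
  obtain ⟨F, C, hC, hF, hd, hG, hoff⟩ :=
    Pool.Agent.R765.corankOne (m := 3) g hg (fun x _ => hr x) hb O hO hgO
  have hl : IsLocalDiffeomorph (𝓡 4) (𝓡 4) ∞ F := hd
  exact ⟨hl.diffeomorphOfBijective hF, C, hC, hG, hoff⟩

theorem cone_aux (X Y : Type) [TopologicalSpace X] [TopologicalSpace Y]
    [ChartedSpace R4 X] [ChartedSpace R4 Y] (hX1 : IsManifold (𝓡 4) ∞ X) (hX2 : T2Space X)
    (hY : IsManifold (𝓡 4) ∞ Y) (g : X ≃ₜ Y) (hb : IsCompact (bad g))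
    (hg : ∀ x, LocDiff g x ∨ ConeMonotone g x)
    (O : Set (X × Y)) (hO : IsOpen O) (hgO : GraphIn g O) :
    ∃ (Φ : Diffeomorph (𝓡 4) (𝓡 4) X Y ∞) (C : Set X), IsCompact C ∧ GraphIn Φ O ∧
      ∀ x, x ∉ C → Φ x = g x := by
  obtain ⟨F, C, hC, hF, hd, hG, hoff⟩ := Pool.Agent.R765.coneMonotone 4 X Y g O (fun x => by
    rcases hg x with h | ⟨A, B, h1, h2, h3, h4⟩
    · exact Or.inl h
    · exact Or.inr ⟨B, h3, A, h1, h2, h4⟩) hb hO hgO
  have hl : IsLocalDiffeomorph (𝓡 4) (𝓡 4) ∞ F := hd
  exact ⟨hl.diffeomorphOfBijective hF, C, hC, hG, hoff⟩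

theorem approx_of_tame {M N : Mfd4} (g : M ≃ₜ N) (hg : Tame M N g) : Approximable M N g := by
  induction hg with
  | @corankOne M N g hb hs hr => exact corank_aux M N M.smooth M.hausdorff N.smooth g hb hs hr
  | @coneMonotone M N g hb hc => exact cone_aux M N M.smooth M.hausdorff N.smooth g hb hc
  | inverse g _ ih => exact approx_symm g ih
  | composition g h _ _ ih1 ih2 => exact approx_trans g h ih1 ih2
  | limit g h C h1 _ ih =>
    intro O hO hgO
    obtain ⟨hC, hG, hoff⟩ := h1 O hO hgO
    obtain ⟨Φ, D, hD, hΦ, hoff2⟩ := ih O hO hgO O hO hG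
    refine ⟨Φ, C O ∪ D, hC.union hD, hΦ, fun x hx => ?_⟩
    rw [hoff2 x fun h => hx (Or.inr h), hoff x fun h => hx (Or.inl h)]

/-- `G` is a diffeomorphism of `ℝ⁴`, equal to a linear isometry outside a compact set (so it extends
to a diffeomorphism of `S⁴`) -/
def StandardAtInfinity (G : R4 → R4) : Prop :=
  ContDiff ℝ ∞ G ∧ (∃ K : R4 → R4, ContDiff ℝ ∞ K ∧ LeftInverse K G ∧ RightInverse K G) ∧
    ∃ (O : R4 ≃ₗᵢ[ℝ] R4) (R : ℝ), ∀ x, R ≤ ‖x‖ → G x = O x

theorem result (H : R4 → R4) (δ : ℝ) (hδ : 0 < δ)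
    (hi : InjOn H (ball 0 (1 + δ))) (hs : ∀ x, 1 ≤ ‖x‖ → ‖x‖ < 1 + δ → LocDiff H x)
    (V : TopologicalSpace.Opens R4) (g : openSubset unitBall ≃ₜ openSubset V)
    (hg : ∀ x, incl V (g x) = H (incl unitBall x))
    (ht : Tame (openSubset unitBall) (openSubset V) g) :
    ∃ G : R4 → R4, StandardAtInfinity G ∧ (∀ x, ‖x‖ = 1 → G x = H x) ∧
      G '' closedBall 0 1 = H '' closedBall 0 1 := by
  obtain ⟨Φ, C, hC, -, hoff⟩ := approx_of_tame g ht univ isOpen_univ (fun _ => mem_univ _)
  obtain ⟨G, O, R, hb, hL, h1, h2, h3⟩ := Pool.Agent.R865.SchT.sch_of_diffeo 4 H δ hδ hi hs V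
    g hg g.surjective Φ C hC hoff
  obtain ⟨hG, hK⟩ := Pool.Agent.Y522.smooth_inverse hb hL
  exact ⟨G, ⟨hG, hK, O, R, h3⟩, h1, h2⟩

end Pool.Agent.Results.MP_6c077c_gt.TameBall
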